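import Mathlib
import Pool.Agent.helper358_erw.Lim
import Pool.Agent.helper358_erw.Drift

set_option autoImplicit false

/-!
A uniformly elliptic cookie environment with `μ = θ = 1` which satisfies the sufficient condition for
right transience of the excited random walk at the border `θ = 1`.
-/

namespace Pool.Agent.Results.MP_758450_pr.BorderlineEnvironment

open MeasureTheory ProbabilityTheory Filter Topology

/-- The Bernoulli law on `Bool`: success (`true`) has probability `q`. -/
noncomputable def bern (q : unitInterval) : Measure Bool :=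
  ENNReal.ofReal q • Measure.dirac true + ENNReal.ofReal (1 - q) • Measure.dirac false

instance isProb_bern (q : unitInterval) : IsProbabilityMeasure (bern q) := by
  constructor
  simp only [bern, Measure.coe_add, Measure.coe_smul, Pi.add_apply, Pi.smul_apply,
    measure_univ, smul_eq_mul, mul_one]
  rw [← ENNReal.ofReal_add q.2.1 (by linarith [q.2.2])]
  simp

/-- The joint law of independent trials `B_1, B_2, …`; the coordinate `e i` is the trial `B_(i+1)`, its
success probability is `p i` (the number `p_(i+1)` of the cookie environment). -/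
noncomputable def trials (p : ℕ → unitInterval) : Measure (ℕ → Bool) :=
  Measure.infinitePi fun i => bern (p i)

instance isProb_trials (p : ℕ → unitInterval) : IsProbabilityMeasure (trials p) := by
  unfold trials; infer_instance

/-- The number of failures among the first `n` trials. -/
def failures (e : ℕ → Bool) (n : ℕ) : ℕ := ((Finset.range n).filter (fun i => e i = false)).card

/-- `U(x)`: the number of successes up to the `x`-th failure (the `x`-th failure happens at trial number
`sInf {n | x ≤ failures e n}`). -/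
noncomputable def U (x : ℕ) (e : ℕ → Bool) : ℕ := sInf {n | x ≤ failures e n} - x

/-- `ρ(x) = E[U(x) - μ x]` -/
noncomputable def rho (p : ℕ → unitInterval) (μ : ℝ) (x : ℕ) : ℝ :=
  ∫ e, ((U x e : ℝ) - μ * x) ∂(trials p)

/-- `ν(x) = E[(U(x) - μ x)²] / x` -/
noncomputable def nu (p : ℕ → unitInterval) (μ : ℝ) (x : ℕ) : ℝ :=
  (∫ e, ((U x e : ℝ) - μ * x) ^ 2 ∂(trials p)) / x

/-- `θ(x) = 2 ρ(x) / ν(x)` -/
noncomputable def theta (p : ℕ → unitInterval) (μ : ℝ) (x : ℕ) : ℝ :=
  2 * rho p μ x / nu p μ x

open Pool.Agent.helper358_erw in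
lemma q_mem (k : ℕ) : (1 + (Dl (k + 1) - Dl k)) / 2 ∈ unitInterval := by
  have h := abs_le.1 (Dl_diff k).2
  constructor <;> linarith [h.1, h.2]

open Pool.Agent.helper358_erw in
/-- the environment -/
noncomputable def env (k : ℕ) : unitInterval := ⟨(1 + (Dl (k + 1) - Dl k)) / 2, q_mem k⟩

lemma isTrials (p : ℕ → unitInterval) :
    Pool.Agent.helper358_erw.IsTrials (trials p) (fun k => (p k : ℝ)) (fun k e => e k) where
  meas := fun k => measurable_pi_apply k
  indep := by
    have h := iIndepFun_infinitePi (P := fun i => bern (p i)) (X := fun _ => (id : Bool → Bool))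
      (fun _ => measurable_id)
    exact h
  prob := fun k => by
    have h1 : (trials p).map (fun e : ℕ → Bool => e k) = bern (p k) :=
      Measure.infinitePi_map_eval (fun i => bern (p i)) k
    have h2 : trials p {e | e k = true} = (trials p).map (fun e : ℕ → Bool => e k) {true} := by
      rw [Measure.map_apply (measurable_pi_apply k) (by measurability)]
      rfl
    rw [h2, h1, bern]
    simp

/-- There is a uniformly elliptic cookie environment `p` such that `U(x)` is almost surely finite and
square integrable for every `x`, `μ = 1`, `θ = 1`, and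
`θ(x) - 1 > 2 / ln x + α(x) x^(-1/2)` for all large `x`, for some `α` with `α(x) ν(x) → ∞`. -/
theorem result : ∃ p : ℕ → unitInterval,
    (∃ ε : ℝ, 0 < ε ∧ ∀ i, ε ≤ (p i : ℝ) ∧ (p i : ℝ) ≤ 1 - ε) ∧
    (∀ x, ∀ᵐ e ∂(trials p), ∃ n, x ≤ failures e n) ∧
    (∀ x, Integrable (fun e => (U x e : ℝ) ^ 2) (trials p)) ∧
    Tendsto (fun x : ℕ => (∫ e, (U x e : ℝ) ∂(trials p)) / x) atTop (𝓝 1) ∧
    Tendsto (fun x : ℕ => theta p 1 x) atTop (𝓝 1) ∧
    ∃ α : ℕ → ℝ, Tendsto (fun x => α x * nu p 1 x) atTop atTop ∧
      ∀ᶠ x : ℕ in atTop,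
        2 / Real.log x + α x * (x : ℝ) ^ (-(1 / 2) : ℝ) < theta p 1 x - 1 := by
  classical
  have hb := Pool.Agent.helper358_erw.Dl_bd
  have hc := isTrials env
  have hΔ : ∀ k, (env k : ℝ) = (1 + (Pool.Agent.helper358_erw.Dl (k + 1) -
    Pool.Agent.helper358_erw.Dl k)) / 2 := fun k => rfl
  set P := trials env with hP
  set Δ := Pool.Agent.helper358_erw.Dl with hDl
  have mm := fun (x : ℕ) (hx : 1 ≤ x) => Pool.Agent.helper358_erw.main_moments hb hc hΔ x hx
  -- translate
  have hUint : ∀ x : ℕ, Integrable (fun e => (U x e : ℝ) ^ 2) P := by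
    intro x
    rcases Nat.eq_zero_or_pos x with rfl | hx
    · have : ∀ e : ℕ → Bool, U 0 e = 0 := by
        intro e
        unfold U
        have : sInf {n | 0 ≤ failures e n} = 0 := by
          apply Nat.sInf_eq_zero.2; left; simp
        rw [this]
      simp [this]
    · exact (mm x hx).1
  have hU1 : ∀ x : ℕ, 1 ≤ x → Integrable (fun e => (U x e : ℝ)) P := fun x hx => (mm x hx).2.1
  have hρ : ∀ x : ℕ, 1 ≤ x → rho env 1 x = ∫ e, Δ (U x e + x) ∂P := by
    intro x hx
    have := (mm x hx).2.2.2.1
    unfold rho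
    simp only [one_mul]
    exact this
  have hν : ∀ x : ℕ, 1 ≤ x → |nu env 1 x - 2| ≤ 102 / Real.sqrt x := by
    intro x hx
    have h1 := (mm x hx).2.2.2.2
    have h2 : |(∫ e, ((U x e : ℝ) - 1 * (x:ℝ)) ^ 2 ∂P) - 2 * (x:ℝ)| ≤ 102 * Real.sqrt x := by
      simp only [one_mul]
      refine h1.trans (le_of_eq ?_)
      norm_num
    have hx0 : (0:ℝ) < x := by exact_mod_cast hx
    have hS : 0 < Real.sqrt x := Real.sqrt_pos.2 hx0
    have hSS : Real.sqrt x * Real.sqrt x = x := Real.mul_self_sqrt hx0.le
    unfold nu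
    rw [div_sub' hx0.ne', abs_div, abs_of_pos hx0, div_le_div_iff₀ hx0 hS]
    calc |(∫ e, ((U x e : ℝ) - 1 * (x:ℝ)) ^ 2 ∂P) - (x:ℝ) * 2| * Real.sqrt x
        ≤ (102 * Real.sqrt x) * Real.sqrt x := by
          refine mul_le_mul_of_nonneg_right ?_ hS.le
          rw [mul_comm (x:ℝ) 2]; exact h2
      _ = 102 * x := by rw [mul_assoc, hSS]
  have hΔint : ∀ x : ℕ, 1 ≤ x → Integrable (fun e => Δ (U x e + x)) P :=
    fun x hx => (mm x hx).2.2.1
  -- upper bound for rho
  have hup : ∀ x : ℕ, 1 ≤ x → rho env 1 x ≤ 1 + 5 / Real.log ((x:ℝ) + 20) := by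
    intro x hx
    rw [hρ x hx]
    have h1 : ∫ e, Δ (U x e + x) ∂P ≤ ∫ _e, (1 + 5 / Real.log ((x:ℝ) + 20)) ∂P := by
      refine integral_mono (hΔint x hx) (integrable_const _) fun e => ?_
      have h2 := Pool.Agent.helper358_erw.Dl_le (U x e + x)
      refine h2.trans ?_
      have h3 := Pool.Agent.helper358_erw.log_ge_one x
      have h4 : Real.log ((x:ℝ) + 20) ≤ Real.log (((U x e + x : ℕ) : ℝ) + 20) := by
        refine Real.log_le_log (by positivity) ?_
        push_cast
        have : (0:ℝ) ≤ (U x e : ℝ) := by positivity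
        linarith
      have h5 : 5 / Real.log (((U x e + x : ℕ) : ℝ) + 20) ≤ 5 / Real.log ((x:ℝ) + 20) :=
        div_le_div_of_nonneg_left (by norm_num) (by linarith) h4
      linarith
    simpa using h1
  have hρ6 : ∀ x : ℕ, 1 ≤ x → rho env 1 x ≤ 6 := by
    intro x hx
    exact (hup x hx).trans (by linarith [(Pool.Agent.helper358_erw.g_bd x).2])
  -- lower bound
  obtain ⟨m1, hm1⟩ := Pool.Agent.helper358_erw.Dl_ge
  have hlow : ∀ x : ℕ, 1 ≤ x → m1 ≤ x → 1 + 4 / Real.log (2 * (x:ℝ) + 26) ≤ rho env 1 x := by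
    intro x hx hxm
    have hx0 : (0:ℝ) ≤ x := by positivity
    set z : ℝ := 2 * (x:ℝ) + 26 with hz
    have hz1 : 1 < z := by rw [hz]; linarith
    have hz0 : 0 < z := by linarith
    have hlz : 0 < Real.log z := Real.log_pos hz1
    have hptw : ∀ e : ℕ → Bool, 1 + 4 / Real.log z -
        (4 / (Real.log z) ^ 2) * ((((U x e : ℝ) + x + 20)) / z - 1) ≤ Δ (U x e + x) := by
      intro e
      have h1 := hm1 (U x e + x) (by omega)
      refine le_trans ?_ h1
      push_cast
      have h2 := Pool.Agent.helper358_erw.inv_log_tangent (y := (U x e : ℝ) + x + 20) (z := z)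
        (by have : (0:ℝ) ≤ (U x e : ℝ) := by positivity
            linarith) hz1
      have e1 : (4 / (Real.log z) ^ 2) * ((((U x e : ℝ) + x + 20)) / z - 1) =
        4 * (((((U x e : ℝ) + x + 20)) / z - 1) / (Real.log z) ^ 2) := by ring
      have e2 : 4 / Real.log z = 4 * (1 / Real.log z) := by ring
      have e3 : 4 / Real.log ((U x e : ℝ) + x + 20) = 4 * (1 / Real.log ((U x e : ℝ) + x + 20)) := by
        ring
      rw [e1, e2, e3]
      linarith
    have hI : Integrable (fun e => ((((U x e : ℝ) + x + 20)) / z - 1)) P := by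
      exact ((((hU1 x hx).add (integrable_const _)).add (integrable_const _)).div_const _).sub
        (integrable_const _)
    have h3 : ∫ e, (1 + 4 / Real.log z -
        (4 / (Real.log z) ^ 2) * ((((U x e : ℝ) + x + 20)) / z - 1)) ∂P ≤ ∫ e, Δ (U x e + x) ∂P :=
      integral_mono ((integrable_const _).sub (hI.const_mul _)) (hΔint x hx) hptw
    rw [integral_sub (integrable_const _) (hI.const_mul _), integral_const_mul] at h3
    simp only [integral_const, probReal_univ, one_smul] at h3
    have h4 : ∫ e, ((((U x e : ℝ) + x + 20)) / z - 1) ∂P ≤ 0 := by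
      have h5 : (fun e => ((((U x e : ℝ) + x + 20)) / z - 1)) =
          fun e => ((U x e : ℝ) - 1 * x) / z + ((2 * (x:ℝ) + 20) / z - 1) := by
        funext e
        field_simp
        ring
      have hI2 : Integrable (fun e => ((U x e : ℝ) - 1 * x) / z) P :=
        ((hU1 x hx).sub (integrable_const _)).div_const _
      rw [h5, integral_add hI2 (integrable_const _), integral_div]
      have h6 : ∫ e, ((U x e : ℝ) - 1 * x) ∂P = rho env 1 x := rfl
      rw [h6]
      simp only [integral_const, probReal_univ, one_smul]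
      have h7 := hρ6 x hx
      have h8 : rho env 1 x / z + ((2 * (x:ℝ) + 20) / z - 1) = (rho env 1 x - 6) / z := by
        rw [hz]; field_simp; ring
      rw [h8]
      exact div_nonpos_of_nonpos_of_nonneg (by linarith) hz0.le
    rw [hρ x hx]
    have h9 : 0 ≤ 4 / (Real.log z) ^ 2 := by positivity
    nlinarith [mul_nonneg h9 (neg_nonneg.2 h4)]
  -- limits
  have hlog : Tendsto (fun x : ℕ => Real.log ((x:ℝ) + 20)) atTop atTop :=
    Real.tendsto_log_atTop.comp (tendsto_atTop_add_const_right _ _ tendsto_natCast_atTop_atTop)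
  have hρlim : Tendsto (fun x : ℕ => rho env 1 x) atTop (𝓝 1) := by
    have h1 : Tendsto (fun x : ℕ => 1 + 5 / Real.log ((x:ℝ) + 20)) atTop (𝓝 1) := by
      have := (tendsto_const_nhds (x := (5:ℝ))).div_atTop hlog
      simpa using (tendsto_const_nhds (x := (1:ℝ))).add this
    refine tendsto_of_tendsto_of_tendsto_of_le_of_le' tendsto_const_nhds h1 ?_ ?_
    · filter_upwards [eventually_ge_atTop 1, eventually_ge_atTop m1] with x hx hx'
      have h2 := hlow x hx hx'
      have h3 : 0 ≤ 4 / Real.log (2 * (x:ℝ) + 26) := by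
        have : 0 ≤ Real.log (2 * (x:ℝ) + 26) := Real.log_nonneg (by
          have : (0:ℝ) ≤ x := by positivity
          linarith)
        positivity
      linarith
    · filter_upwards [eventually_ge_atTop 1] with x hx
      exact hup x hx
  have hsqrt : Tendsto (fun x : ℕ => 102 / Real.sqrt x) atTop (𝓝 0) :=
    (tendsto_const_nhds (x := (102:ℝ))).div_atTop
      (Real.tendsto_sqrt_atTop.comp tendsto_natCast_atTop_atTop)
  have hνlim : Tendsto (fun x : ℕ => nu env 1 x) atTop (𝓝 2) := by
    rw [← tendsto_sub_nhds_zero_iff]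
    refine squeeze_zero_norm' ?_ hsqrt
    filter_upwards [eventually_ge_atTop 1] with x hx
    exact hν x hx
  refine ⟨env, ⟨1 / 24, by norm_num, fun i => ?_⟩, fun x => ?_, hUint, ?_, ?_, ?_⟩
  · have h := abs_le.1 (Pool.Agent.helper358_erw.Dl_diff i).2
    rw [hΔ i]
    constructor <;> linarith [h.1, h.2]
  · exact Pool.Agent.helper358_erw.ae_fail hb hc hΔ x
  · -- mean
    have h1 : Tendsto (fun x : ℕ => rho env 1 x / x + 1) atTop (𝓝 (0 + 1)) :=
      (hρlim.div_atTop tendsto_natCast_atTop_atTop).add_const 1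
    rw [zero_add] at h1
    refine h1.congr' ?_
    filter_upwards [eventually_ge_atTop 1] with x hx
    have hx0 : (0:ℝ) < x := by exact_mod_cast hx
    have h2 : rho env 1 x = (∫ e, (U x e : ℝ) ∂P) - x := by
      unfold rho
      rw [integral_sub (hU1 x hx) (integrable_const _)]
      simp
    rw [h2]
    field_simp
    ring
  · have h1 := (hρlim.const_mul 2).div hνlim (by norm_num)
    have h2 : (2:ℝ) * 1 / 2 = 1 := by norm_num
    rw [h2] at h1
    exact h1
  · refine ⟨fun x => (x:ℝ) ^ (1 / 4 : ℝ), ?_, ?_⟩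
    · exact Tendsto.atTop_mul_pos (by norm_num : (0:ℝ) < 2)
        ((tendsto_rpow_atTop (by norm_num : (0:ℝ) < 1 / 4)).comp tendsto_natCast_atTop_atTop) hνlim
    · have hlo : ∀ᶠ x : ℕ in atTop, Real.log x ≤ (1 / 4) * (x:ℝ) ^ (1 / 4 : ℝ) := by
        have h1 := (isLittleO_log_rpow_atTop (by norm_num : (0:ℝ) < 1 / 4)).def
          (by norm_num : (0:ℝ) < 1 / 4)
        have h2 := tendsto_natCast_atTop_atTop.eventually h1
        filter_upwards [h2, eventually_ge_atTop 1] with x hx hx1
        have hx1' : (1:ℝ) ≤ x := by exact_mod_cast hx1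
        rw [Real.norm_of_nonneg (Real.log_nonneg hx1'), Real.norm_of_nonneg (by positivity)] at hx
        exact hx
      have hY : ∀ᶠ x : ℕ in atTop, (400:ℝ) ≤ (x:ℝ) ^ (1 / 4 : ℝ) :=
        ((tendsto_rpow_atTop (by norm_num : (0:ℝ) < 1 / 4)).comp
          tendsto_natCast_atTop_atTop).eventually_ge_atTop 400
      have hνpos : ∀ᶠ x : ℕ in atTop, 1 < nu env 1 x :=
        hνlim.eventually (lt_mem_nhds (by norm_num))
      filter_upwards [hlo, hY, hνpos, eventually_ge_atTop 27, eventually_ge_atTop m1] with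
        x h1 h2 h3 h4 h5
      have hx1 : 1 ≤ x := by omega
      have hx27 : (27:ℝ) ≤ x := by exact_mod_cast h4
      have hx0 : (0:ℝ) < x := by linarith
      set Y := (x:ℝ) ^ (1 / 4 : ℝ) with hYd
      have hY0 : 0 < Y := by linarith
      have e0 : Y ^ 2 = (x:ℝ) ^ (1 / 2 : ℝ) := by
        have w1 : ((x:ℝ) ^ (1 / 4 : ℝ)) ^ (2 : ℕ) = (x:ℝ) ^ ((1 / 4 : ℝ) * (2 : ℕ)) := by
          rw [Real.rpow_mul hx0.le, Real.rpow_natCast]
        rw [hYd, w1]
        congr 1
        norm_num
      have e1 : Real.sqrt x = Y ^ 2 := by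
        rw [e0, Real.sqrt_eq_rpow]
      have e2 : (x:ℝ) ^ (-(1 / 2) : ℝ) = 1 / Y ^ 2 := by
        rw [Real.rpow_neg hx0.le, ← e0]
        exact (one_div (Y ^ 2)).symm
      have hlogpos : 0 < Real.log x := Real.log_pos (by linarith)
      -- log (2x+26) <= (4/3) log x
      have hl1 : Real.log (2 * (x:ℝ) + 26) ≤ 4 / 3 * Real.log x := by
        have s1 : Real.log (2 * (x:ℝ) + 26) ≤ Real.log (3 * x) :=
          Real.log_le_log (by linarith) (by linarith)
        have s2 : Real.log (3 * x) = Real.log 3 + Real.log x :=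
          Real.log_mul (by norm_num) hx0.ne'
        have s3 : 3 * Real.log 3 ≤ Real.log x := by
          have : 3 * Real.log 3 = Real.log 27 := by
            rw [show (27:ℝ) = 3 ^ 3 by norm_num, Real.log_pow]; norm_num
          rw [this]
          exact Real.log_le_log (by norm_num) hx27
        linarith
      have hl2 : 3 / Real.log x ≤ 4 / Real.log (2 * (x:ℝ) + 26) := by
        have hp : 0 < Real.log (2 * (x:ℝ) + 26) := Real.log_pos (by linarith)
        rw [div_le_div_iff₀ hlogpos hp]
        linarith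
      have hr1 := hlow x hx1 h5
      have hr2 := hρ6 x hx1
      have hn := (abs_le.1 (hν x hx1)).2
      rw [e1] at hn
      set r := rho env 1 x with hr
      set n := nu env 1 x with hnd
      have hrge : 1 + 3 / Real.log x ≤ r := by linarith
      -- theta >= r - 306 / Y^2
      have hth : r - 306 / Y ^ 2 ≤ 2 * r / n := by
        rw [le_div_iff₀ (by linarith)]
        have hY2 : 0 < Y ^ 2 := by positivity
        have t0 : 0 ≤ 306 / Y ^ 2 := by positivity
        have t1 : r * (n - 2) ≤ 6 * (102 / Y ^ 2) := by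
          by_cases hc' : n - 2 ≤ 0
          · have : 0 ≤ 6 * (102 / Y ^ 2) := by positivity
            have hr0 : 0 ≤ r := by
              have : 0 ≤ 3 / Real.log x := by positivity
              linarith
            nlinarith
          · push Not at hc'
            calc r * (n - 2) ≤ 6 * (n - 2) := mul_le_mul_of_nonneg_right hr2 hc'.le
              _ ≤ 6 * (102 / Y ^ 2) := by linarith
        have t2 : 306 / Y ^ 2 * n ≥ 306 / Y ^ 2 * 1 := mul_le_mul_of_nonneg_left h3.le t0
        by_cases hbig : n ≤ 2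
        · have hr0 : 0 ≤ r := by
            have : 0 ≤ 3 / Real.log x := by positivity
            linarith
          nlinarith [mul_nonneg hr0 (sub_nonneg.2 hbig), mul_nonneg t0 (by linarith : (0:ℝ) ≤ n)]
        · push Not at hbig
          have t3 : 306 / Y ^ 2 * n ≥ 306 / Y ^ 2 * 2 := mul_le_mul_of_nonneg_left hbig.le t0
          have t4 : 6 * (102 / Y ^ 2) = 306 / Y ^ 2 * 2 := by ring
          nlinarith
      have hθ : theta env 1 x = 2 * r / n := rfl
      rw [hθ, e2]
      have e3 : Y * (1 / Y ^ 2) = 1 / Y := by field_simp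
      rw [e3]
      have f1 : 306 / Y ^ 2 ≤ 1 / Y := by
        rw [div_le_div_iff₀ (by positivity) hY0]
        nlinarith
      have f2 : 4 / Y ≤ 1 / Real.log x := by
        rw [div_le_div_iff₀ hY0 hlogpos]
        linarith
      have f3 : 4 / Y = 1 / Y + 1 / Y + 2 / Y := by ring
      have f4 : 0 < 2 / Y := by positivity
      have f5 : 3 / Real.log x = 2 / Real.log x + 1 / Real.log x := by ring
      linarith

end Pool.Agent.Results.MP_758450_pr.BorderlineEnvironment
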